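import Pool.Agent.Helper20.SPR.MAG
import Pool.Agent.Helper22.SPR.FIN
import Pool.Agent.Helper98.SPR.HTc
import Pool.Agent.Helper27.SPR.EN
import Pool.Agent.Helper28.SPR.CROSS
import Pool.Agent.Helper28.SPR.REC1
import Pool.Agent.Helper59.SPR.ISO
import Pool.Agent.Helper59.SPR.REC2
import Pool.Agent.Helper61.SPR.AREA
import Pool.Agent.Helper61.SPR.AREA2
import Pool.Agent.Helper78.SPR.MAIN
import Pool.Agent.Helper80.SPR.EDGE
import Pool.Agent.Helper82.SPR.GRID
import Pool.Agent.Helper82.SPR.LIFT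
import Pool.Agent.Helper82.SPR.POT
import Pool.Agent.Helper82.SPR.RSUM
import Pool.Agent.Helper87.SPR.LIM

/-!
# Local limits of planar multigraphs rooted on a sparse set are recurrent

All definitions are in `Pool/Agent/Helper98/SPR/Defs.lean`.
-/

namespace Pool.Agent.Results.MP_728613_pr.SparseRootRecurrence

open Filter Topology MeasureTheory SPR

open Classical in
/-- Finite multigraphs `c n` on `V n` with disc models of constant `K`, and nonempty sets `S n` of
non-isolated vertices, such that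
* for every `h ≥ 1`, for all large `n`, the sum of `exp (a deg v)` over the vertices `v` at distance
  at most `h` from `S n` is at most `Cst h ^ b |S n|`;
* for every `t ≥ 1`, for all large `n`, the vertices at distance at most `t ^ q` from `S n` are covered
  by `Cst t ^ m |S n|` balls of radius `t ^ j`, where `2 j < q` and `m + j < q`.
If `(c n, uniform vertex of S n)` converges locally to the random rooted multigraph `(G ω, 0)`, then
`G ω` is almost surely recurrent. -/
theorem result (K Cst a : ℝ) (b q j m : ℕ) (hK : 1 ≤ K) (hC : 0 < Cst) (ha : 0 < a)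
    (hjq : 2 * j < q) (hmq : m + j < q)
    (V : ℕ → Type) [∀ n, Fintype (V n)] (c : ∀ n, V n → V n → ℕ) (S : ∀ n, Finset (V n))
    (hsymm : ∀ n x y, c n x y = c n y x)
    (hdisc : ∀ n, Nonempty (DiscModel K (c n)))
    (hne : ∀ n, (S n).Nonempty)
    (hiso : ∀ n, ∀ w ∈ S n, ∃ y, c n w y ≠ 0)
    (htube : ∀ h : ℕ, 1 ≤ h → ∀ᶠ n in atTop,
      ∑ v with NearSet (c n) h (S n) v, Real.exp (a * deg (c n) v) ≤ Cst * h ^ b * (S n).card)
    (hcover : ∀ t : ℕ, 1 ≤ t → ∀ᶠ n in atTop, ∃ Net : Finset (V n),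
      (Net.card : ℝ) ≤ Cst * t ^ m * (S n).card ∧
        ∀ v, NearSet (c n) (t ^ q) (S n) v → ∃ z ∈ Net, Near (c n) (t ^ j) v z)
    (Ω : Type) [MeasurableSpace Ω] (P : Measure Ω) [IsProbabilityMeasure P]
    (G : Ω → ℕ → ℕ → ℕ) (hGs : ∀ ω x y, G ω x y = G ω y x)
    (hGf : ∀ ω x, (Function.support (G ω x)).Finite)
    (hlim : LocalLimit c S P G) :
    ∀ᵐ ω ∂P, Recurrent (G ω) 0 := by
  have hAREA : ST_AREA := st_AREA
  have hEDGE : ST_EDGE := st_EDGE
  have hLIFT : ST_LIFT := st_LIFT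
  have hMAG : ST_MAG := st_MAG hAREA st_POT st_GRID
  have hCROSS : ST_CROSS := st_CROSS hAREA (st_AREA2 hAREA) hEDGE
  have hHT : ST_HT := st_HT hEDGE hCROSS hLIFT
  have hEN : ST_EN := st_EN (st_RSUM hAREA) hEDGE hLIFT st_EN1
  have hFIN : ST_FIN := st_FIN hMAG hHT hEN
  have hLIM : ST_LIM := st_LIM st_ISO
  have hREC : ST_REC2 := st_REC2 st_REC1
  exact st_MAIN hFIN hLIM hREC K Cst a b q j m hK hC ha hjq hmq V c S hsymm hdisc hne hiso htube
    hcover Ω P G hGs hGf hlim

end Pool.Agent.Results.MP_728613_pr.SparseRootRecurrence
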