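import Pool.Agent.Helper20.SPR.MAG
import Pool.Agent.Helper27.SPR.EN
import Pool.Agent.Helper28.SPR.REC1
import Pool.Agent.Helper59.SPR.ISO
import Pool.Agent.Helper59.SPR.REC2
import Pool.Agent.Helper61.SPR.AREA
import Pool.Agent.Helper80.SPR.EDGE
import Pool.Agent.Helper82.SPR.GRID
import Pool.Agent.Helper82.SPR.LIFT
import Pool.Agent.Helper82.SPR.POT
import Pool.Agent.Helper82.SPR.RSUM
import Pool.Agent.Helper87.SPR.LIM
import Pool.Agent.Helper98.SPR.MAINB

/-!
# Local limits rooted on a sparse set, bounded degree: a growth condition for recurrence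

All definitions are in `Pool/Agent/Helper98/SPR/Defs.lean`.
-/

namespace Pool.Agent.Results.MP_728613_pr.TubeGrowthCriterion

open Filter Topology MeasureTheory SPR

open Classical in
/-- Finite multigraphs `c n` of maximal degree at most `Δ` with disc models of constant `K`, and
nonempty sets `S n` of non-isolated vertices, such that for every `h ≥ 1`, for all large `n`, at most
`g h |S n|` vertices are at distance at most `h` from `S n`, where `∑ 4 ^ i / g (2 ^ i) = ∞` (for
example `g h = C h ^ 2`).  If `(c n, uniform vertex of S n)` converges locally to the random rooted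
multigraph `(G ω, 0)`, then `G ω` is almost surely recurrent. -/
theorem result (K : ℝ) (Δ : ℕ) (g : ℕ → ℝ) (hK : 1 ≤ K) (hg : ∀ h, 0 < g h)
    (hsum : ¬ Summable (fun i : ℕ => (4 : ℝ) ^ i / g (2 ^ i)))
    (V : ℕ → Type) [∀ n, Fintype (V n)] (c : ∀ n, V n → V n → ℕ) (S : ∀ n, Finset (V n))
    (hsymm : ∀ n x y, c n x y = c n y x)
    (hdisc : ∀ n, Nonempty (DiscModel K (c n)))
    (hne : ∀ n, (S n).Nonempty)
    (hiso : ∀ n, ∀ w ∈ S n, ∃ y, c n w y ≠ 0)
    (hdeg : ∀ n v, deg (c n) v ≤ Δ)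
    (htube : ∀ h : ℕ, 1 ≤ h → ∀ᶠ n in atTop,
      ((Finset.univ.filter (fun v => NearSet (c n) h (S n) v)).card : ℝ) ≤ g h * (S n).card)
    (Ω : Type) [MeasurableSpace Ω] (P : Measure Ω) [IsProbabilityMeasure P]
    (G : Ω → ℕ → ℕ → ℕ) (hGs : ∀ ω x y, G ω x y = G ω y x)
    (hGf : ∀ ω x, (Function.support (G ω x)).Finite)
    (hlim : LocalLimit c S P G) :
    ∀ᵐ ω ∂P, Recurrent (G ω) 0 := by
  have hAREA : ST_AREA := st_AREA
  have hEDGE : ST_EDGE := st_EDGE
  have hMAG : ST_MAG := st_MAG hAREA st_POT st_GRID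
  have hEN : ST_EN := st_EN (st_RSUM hAREA) hEDGE st_LIFT st_EN1
  have hFIN : ST_FINB := st_FINB hMAG hEDGE hEN
  have hREC : ST_REC2 := st_REC2 st_REC1
  exact st_MAINB hFIN (st_LIM st_ISO) hREC K Δ g hK hg hsum V c S hsymm hdisc hne hiso hdeg
    htube Ω P G hGs hGf hlim

end Pool.Agent.Results.MP_728613_pr.TubeGrowthCriterion
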