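import Pool.Agent.Helper98.QR.FinQ

/-!
# The two-sided map is recurrent (question Q2)

`H` and `H'` are two independent copies of the simple boundary uniform infinite half-planar
quadrangulation: random multigraphs with a boundary path, whose law is the local limit of the uniform
quadrangulations with `n` inner faces and a simple boundary of length `2 p`, first `n → ∞`, then
`p → ∞` (`QR.IsUIHPQ`).  They are glued along their boundaries, the two root edges being identified
with opposite orientations (`QR.glueC`).  The resulting map is almost surely recurrent.
-/

namespace Pool.Agent.Results.MP_728613_pr.TwoSidedRecurrence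

open MeasureTheory

/-- Let `H` and `H'` be independent simple boundary uniform infinite half-planar quadrangulations.
Almost surely, simple random walk on the glueing of `H` and `H'`, started at the origin `H.b 0`,
returns to the origin almost surely. -/
theorem result (Ω : Type) [MeasurableSpace Ω] (P : Measure Ω) [IsProbabilityMeasure P]
    (H H' : Ω → QR.BGraph ℕ) (hH : QR.IsUIHPQ P H) (hH' : QR.IsUIHPQ P H')
    (hind : ProbabilityTheory.IndepFun (fun ω => ((H ω).c, (H ω).b)) (fun ω => ((H' ω).c, (H' ω).b))
      P) :
    ∀ᵐ ω ∂P, SPR.Recurrent (QR.glueC (H ω) (H' ω)) (Sum.inl ((H ω).b 0)) := by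
  refine QR.st_QR2 QR.fin_QR Ω P H H' hH hH' ?_
  rw [ProbabilityTheory.IndepFun_iff_Indep] at hind ⊢
  have h1 : ∀ G : Ω → QR.BGraph ℕ,
      MeasurableSpace.comap G QR.BGraph.instMeasurableSpace =
        MeasurableSpace.comap (fun ω => ((G ω).c, (G ω).b)) inferInstance := by
    intro G
    show MeasurableSpace.comap G (MeasurableSpace.comap _ _) = _
    rw [MeasurableSpace.comap_comp]
    rfl
  rw [h1, h1]
  exact hind

end Pool.Agent.Results.MP_728613_pr.TwoSidedRecurrence
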